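import Pool.Agent.H13.MA.TStmts

/-!
MA: module BLK (blocks of the same finite size).
-/

set_option linter.unusedVariables false
set_option synthInstance.maxSize 100000

namespace SW

section
variable {M : Type} [SetStr M] [ZF M]

/-- the members of `A` whose part outside `r` has `n` elements -/
noncomputable def blkA (A r n : M) : M := sep A (fun p => Cnt (diff p r) n)

theorem blkA_df (A r : M) : Fn1 (fun n : M => blkA A r n) := by unfold blkA; infer_instance

instance {A r : M} {n : ℕ} {t : (Fin n → M) → M} [ht : DfT t] : DfT (fun v => blkA A r (t v)) :=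
  (blkA_df A r).comp1 ht

theorem mem_blkA {A r n p : M} : E p (blkA A r n) ↔ E p A ∧ Cnt (diff p r) n := by
  unfold blkA
  rw [mem_sep' inferInstance]

/-- the condition for the transfinite choice -/
def BlkP (r c b : M) : Prop := ¬ E b c ∧ ∀ b' x y, E b' c → E x (diff b' r) → E y (diff b r) → E x y

theorem BlkP_df (r : M) : Cl2 (fun c b : M => BlkP r c b) := by unfold BlkP; infer_instance

/-- the enumerations of `x` -/
noncomputable def blkF (w k x : M) : M := sep (pow (prod k w)) (fun f => Enum f k x)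

theorem blkF_df (w k : M) : Fn1 (fun x : M => blkF w k x) := by unfold blkF; infer_instance

instance {w k : M} {n : ℕ} {t : (Fin n → M) → M} [ht : DfT t] : DfT (fun v => blkF w k (t v)) :=
  (blkF_df w k).comp1 ht

theorem mem_blkF {w k x f : M} : E f (blkF w k x) ↔ Sub f (prod k w) ∧ Enum f k x := by
  unfold blkF
  rw [mem_sep' inferInstance, mem_pow]

/-- the chosen element number `i` of the new part of block `a` -/
noncomputable def blkY (g w k r V a i : M) : M := app (app g (blkF w k (diff (app V a) r))) i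

theorem blkY_df (g w k r V : M) : Fn2 (fun a i : M => blkY g w k r V a i) := by unfold blkY; infer_instance

instance {g w k r V : M} {n : ℕ} {t s : (Fin n → M) → M} [ht : DfT t] [hs : DfT s] :
    DfT (fun v => blkY g w k r V (t v) (s v)) := (blkY_df g w k r V).comp2 ht hs

/-- the function of all blocks -/
noncomputable def blkB (g w k r V : M) : M :=
  sep (prod (prod w k) w) (fun t => ∃ a i : M, t = opair (opair a i) (blkY g w k r V a i))

theorem mem_blkB {g w k r V a i y : M} : E (opair (opair a i) y) (blkB g w k r V) ↔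
    (E a w ∧ E i k ∧ E y w) ∧ y = blkY g w k r V a i := by
  unfold blkB
  rw [mem_sep' inferInstance, mem_prod, mem_prod]
  constructor
  · rintro ⟨⟨⟨h1, h2⟩, h3⟩, a', i', h⟩
    rw [opair_inj, opair_inj] at h
    obtain ⟨⟨rfl, rfl⟩, h⟩ := h
    exact ⟨⟨h1, h2, h3⟩, h⟩
  · rintro ⟨⟨h1, h2, h3⟩, h⟩
    exact ⟨⟨⟨h1, h2⟩, h3⟩, a, i, by rw [h]⟩

end

theorem ma_blk (hdel : DELStmt) (hseq : SEQStmt) (hcbt : CBTStmt) (hwf : WFStmt) (hacf : ACFStmt) : BLKStmt := by
  intro M _ _ w B hw hBs hNCC
  have cb := hcbt M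
  have wf := hwf M w hw
  obtain ⟨A, hA, hA1, hA2⟩ := hNCC
  obtain ⟨A', r, hA'A, hA', hr, hrs, hdl⟩ := hdel M A (fun p => p) inferInstance hA (fun p hp => (hA1 p hp).1)
  -- the same size
  have hsz : ∃ k, E k om ∧ ¬ Cb (blkA A' r k) := by
    by_contra hno
    push Not at hno
    apply hA'
    refine cb.sub (cb.iUn (fun k => blkA A' r k) inferInstance cb.om hno) ?_
    intro p hp
    obtain ⟨k, hk⟩ := finF.sub (hA1 p (hA'A p hp)).1 (y := diff p r) (fun z hz => (mem_diff.1 hz).1)
    rw [mem_sUn]
    refine ⟨blkA A' r k, ?_, mem_blkA.2 ⟨hp, hk⟩⟩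
    rw [mem_img' inferInstance]
    exact ⟨k, hk.1, rfl⟩
  obtain ⟨k, hk, hAk⟩ := hsz
  have hsubw : ∀ p, E p (blkA A' r k) → Sub (diff p r) w := fun p hp z hz =>
    (hA1 p (hA'A p (mem_blkA.1 hp).1)).2.1 z (mem_diff.1 hz).1
  -- the transfinite choice
  obtain ⟨V, hV⟩ := hseq M w (blkA A' r k) (fun c b => BlkP r c b) hw (BlkP_df r) (by
    intro c hc hcc
    obtain ⟨η, hη, hηb⟩ := wf.bdd (s := sUn (img c (fun b => diff b r))) (by
        intro z hz
        rw [mem_sUn] at hz
        obtain ⟨y, hy, hz⟩ := hz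
        rw [mem_img' inferInstance] at hy
        obtain ⟨b, hb, rfl⟩ := hy
        exact hsubw b (hc b hb) z hz) (cb.iUn (fun b => diff b r) inferInstance hcc (by
          intro b hb
          exact cb.fin (finF.sub (hA1 b (hA'A b (mem_blkA.1 (hc b hb)).1)).1 (fun z hz => (mem_diff.1 hz).1))))
    by_contra hno
    push Not at hno
    apply hAk
    refine cb.sub (cb.bun hcc (cb.iUn (x := suc η) (fun y => sep (blkA A' r k) (fun b => E y (diff b r))) inferInstance
      (hw.2.2 _ (wf.suc hη)) ?_)) ?_
    · intro y hy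
      -- at most one member
      by_cases hex : ∃ b, E b (sep (blkA A' r k) (fun b => E y (diff b r)))
      · obtain ⟨b, hb⟩ := hex
        refine cb.sub (cb.fin (x := ins b emp) (finF.ins finF.emp)) ?_
        intro b' hb'
        rw [mem_sep' inferInstance] at hb hb'
        rw [mem_ins]
        right
        by_contra hne
        have h1 := hdl b' b (mem_blkA.1 hb'.1).1 (mem_blkA.1 hb.1).1 hne y (mem_diff.1 hb'.2).1 (mem_diff.1 hb.2).1
        exact (mem_diff.1 hb.2).2 h1
      · push Not at hex
        rw [eq_emp hex]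
        exact cb.fin finF.emp
    · intro b hb
      rw [mem_bun]
      by_cases hbc : E b c
      · exact Or.inl hbc
      · right
        have h1 := hno b hb
        unfold BlkP at h1
        push Not at h1
        obtain ⟨b', x, y, hb', hx, hy, hxy⟩ := h1 hbc
        have hyw := hsubw b hb y hy
        have hxη : E x η := hηb x (by
          rw [mem_sUn]
          refine ⟨diff b' r, ?_, hx⟩
          rw [mem_img' inferInstance]
          exact ⟨b', hb', rfl⟩)
        have hyo := wf.ord hyw
        have hηo := wf.ord hη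
        have hyη : E y (suc η) := by
          rw [mem_suc]
          rcases hyo.tri hηo with h2 | h2 | h2
          · exact Or.inl h2
          · exact Or.inr h2
          · exact absurd (hyo.trans h2 hxη) hxy
        rw [mem_sUn]
        refine ⟨sep (blkA A' r k) (fun b => E y (diff b r)), ?_, ?_⟩
        · rw [mem_img' inferInstance]
          exact ⟨y, hyη, rfl⟩
        · rw [mem_sep' inferInstance]
          exact ⟨hb, hy⟩)
  obtain ⟨g, hg⟩ := hacf M (pow (prod k w))
  -- enumerations
  have hF : ∀ a, E a w → E (app g (blkF w k (diff (app V a) r))) (blkF w k (diff (app V a) r)) := by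
    intro a ha
    refine hg _ (fun f hf => ?_) ?_
    · rw [mem_pow]; exact (mem_blkF.1 hf).1
    · obtain ⟨_, f, hf⟩ := (mem_blkA.1 (hV a ha).1).2
      obtain ⟨e1, e2, e3, e4⟩ := hf
      have hsub := hsubw _ (hV a ha).1
      refine ⟨inter f (prod k w), mem_blkF.2 ⟨fun z hz => (mem_inter.1 hz).2, ?_, ?_, ?_, ?_⟩⟩
      · intro i hi
        obtain ⟨y, hy, hiy⟩ := e1 i hi
        exact ⟨y, hy, by rw [mem_inter, mem_prod]; exact ⟨hiy, hi, hsub y hy⟩⟩
      · intro y hy
        obtain ⟨i, hi, hiy⟩ := e2 y hy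
        exact ⟨i, hi, by rw [mem_inter, mem_prod]; exact ⟨hiy, hi, hsub y hy⟩⟩
      · intro i y y' hi h1 h2
        exact e3 i y y' hi (mem_inter.1 h1).1 (mem_inter.1 h2).1
      · intro i i' y hi hi' hy h1 h2
        exact e4 i i' y hi hi' hy (mem_inter.1 h1).1 (mem_inter.1 h2).1
  have hY : ∀ a i, E a w → E i k → E (opair i (blkY g w k r V a i)) (app g (blkF w k (diff (app V a) r))) ∧
      E (blkY g w k r V a i) (diff (app V a) r) := by
    intro a i ha hi
    obtain ⟨e1, e2, e3, e4⟩ := (mem_blkF.1 (hF a ha)).2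
    obtain ⟨y, hy, hiy⟩ := e1 i hi
    have h1 : blkY g w k r V a i = y := by
      unfold blkY app
      exact the_eq hiy fun z hz => e3 i z y hi hz hiy
    rw [h1]
    exact ⟨hiy, hy⟩
  have happ : ∀ a i, E a w → E i k → app (blkB g w k r V) (opair a i) = blkY g w k r V a i := by
    intro a i ha hi
    unfold app
    refine the_eq (mem_blkB.2 ⟨⟨ha, hi, hsubw _ (hV a ha).1 _ (hY a i ha hi).2⟩, rfl⟩) fun z hz => ?_
    exact (mem_blkB.1 hz).2
  have hlt : ∀ a b x y, E b w → E a b → E x (diff (app V a) r) → E y (diff (app V b) r) → E x y := by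
    intro a b x y hb hab hx hy
    refine (hV b hb).2.2 (app V a) x y ?_ hx hy
    rw [mem_img' inferInstance]
    exact ⟨a, hab, rfl⟩
  refine ⟨k, blkB g w k r V, hk, ?_, ?_, ?_⟩
  · intro a i ha hi
    rw [happ a i ha hi]
    exact hsubw _ (hV a ha).1 _ (hY a i ha hi).2
  · intro a b i j hb hab hi hj
    have ha : E a w := hw.1.trans hb hab
    rw [happ a i ha hi, happ b j hb hj]
    exact hlt a b _ _ hb hab (hY a i ha hi).2 (hY b j hb hj).2
  · intro a b hb hab
    have ha : E a w := hw.1.trans hb hab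
    have hne : app V a ≠ app V b := by
      intro h
      refine (hV b hb).2.1 ?_
      rw [mem_img' inferInstance]
      exact ⟨a, hab, h.symm⟩
    have hVa := (mem_blkA.1 (hV a ha).1).1
    have hVb := (mem_blkA.1 (hV b hb).1).1
    have hnf := hA2 _ _ (hA'A _ hVa) (hA'A _ hVb) hne
    have hfa := (hA1 _ (hA'A _ hVa)).2.2
    have hfb := (hA1 _ (hA'A _ hVb)).2.2
    unfold Fr at hnf hfa hfb
    push Not at hnf
    obtain ⟨x, y, hx, hy, hxy⟩ := hnf
    rw [mem_bun] at hx hy
    have hra := hrs _ hVa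
    have hrb := hrs _ hVb
    -- positions
    have hpos : ∀ a, E a w → ∀ x, E x (app V a) → ¬ E x r → ∃ i, E i k ∧ app (blkB g w k r V) (opair a i) = x := by
      intro a ha x hx hxr
      obtain ⟨e1, e2, e3, e4⟩ := (mem_blkF.1 (hF a ha)).2
      obtain ⟨i, hi, hix⟩ := e2 x (mem_diff.2 ⟨hx, hxr⟩)
      refine ⟨i, hi, ?_⟩
      rw [happ a i ha hi]
      exact e3 i _ _ hi (hY a i ha hi).1 hix
    have key : ∀ x y, E x (app V a) → E y (app V b) → ¬ E x (app V b) → ¬ E y (app V a) →
        ¬ E (opair x y) B → ∃ i j, E i k ∧ E j k ∧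
          ¬ E (opair (app (blkB g w k r V) (opair a i)) (app (blkB g w k r V) (opair b j))) B := by
      intro x y hx hy hx' hy' hxy
      obtain ⟨i, hi, hi'⟩ := hpos a ha x hx (fun h => hx' (hrb x h))
      obtain ⟨j, hj, hj'⟩ := hpos b hb y hy (fun h => hy' (hra y h))
      refine ⟨i, j, hi, hj, ?_⟩
      rw [hi', hj']
      exact hxy
    rw [pairIn_iff] at hxy
    by_cases hxa : E x (app V a)
    · have hya : ¬ E y (app V a) := fun h => hxy (pairIn_iff.1 (hfa x y hxa h))
      have hyb := hy.resolve_left hya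
      have hxb : ¬ E x (app V b) := fun h => hxy (pairIn_iff.1 (hfb x y h hyb))
      exact key x y hxa hyb hxb hya hxy
    · have hxb := hx.resolve_left hxa
      have hyb : ¬ E y (app V b) := fun h => hxy (pairIn_iff.1 (hfb x y hxb h))
      have hya := hy.resolve_right hyb
      exact key y x hya hxb hyb hxa (fun h => hxy (hBs _ _ h))

end SW
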