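import Pool.Agent.H13.MA.TStmts

/-!
MA: module COMB.
-/

set_option linter.unusedVariables false
set_option synthInstance.maxSize 100000

namespace SW

section
variable {M : Type} [SetStr M] [ZF M]

/-- the relation: equal or incomparable -/
noncomputable def combB (w V : M) : M := sep (prod w w) (fun t => ∃ x y : M, t = opair x y ∧
  (x = y ∨ (¬ Sub (app V x) (app V y) ∧ ¬ Sub (app V y) (app V x))))

theorem mem_combB {w V x y : M} : E (opair x y) (combB w V) ↔ (E x w ∧ E y w) ∧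
    (x = y ∨ (¬ Sub (app V x) (app V y) ∧ ¬ Sub (app V y) (app V x))) := by
  unfold combB
  rw [mem_sep' inferInstance, mem_prod]
  constructor
  · rintro ⟨h, x', y', h1, h2⟩
    rw [opair_inj] at h1
    obtain ⟨rfl, rfl⟩ := h1
    exact ⟨h, h2⟩
  · rintro ⟨h, h2⟩
    exact ⟨h, x, y, rfl, h2⟩

end

theorem ma_comb (hblk : BLKStmt) (hkey : KEYStmt) : COMBStmt := by
  intro M _ _ w O V hw hfree hDec hHL hPB
  rcases hfree (combB w V) (by
    have : sep w (fun x => E (opair x x) (combB w V)) = w := ext fun x => by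
      rw [mem_sep' inferInstance, mem_combB]
      exact ⟨fun h => h.1, fun h => ⟨h, ⟨h, h⟩, Or.inl rfl⟩⟩
    rw [this]
    exact hw.2.1) with h | h
  · exfalso
    obtain ⟨n, β, hn, hβ, hlt, hb⟩ := hblk M w (combB w V) hw (by
      intro x y h
      rw [mem_combB] at h ⊢
      obtain ⟨⟨h1, h2⟩, h3⟩ := h
      refine ⟨⟨h2, h1⟩, ?_⟩
      rcases h3 with h3 | h3
      · exact Or.inl h3.symm
      · exact Or.inr ⟨h3.2, h3.1⟩) h
    refine hkey M w O V n β hw hDec hHL hPB hn hβ hlt ?_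
    intro a b hb' hab
    obtain ⟨i, j, hi, hj, hij⟩ := hb a b hb' hab
    refine ⟨i, j, hi, hj, ?_⟩
    have ha : E a w := hw.1.trans hb' hab
    by_contra hcon
    apply hij
    rw [mem_combB]
    exact ⟨⟨hβ a i ha hi, hβ b j hb' hj⟩, Or.inr ⟨hDec.2 _ _ (hβ b j hb' hj) (hlt a b i j hb' hab hi hj), hcon⟩⟩
  · obtain ⟨A, h1, h2, h3⟩ := h
    refine ⟨A, h1, h2, fun a b ha hb hab => ?_⟩
    have h4 := (mem_combB.1 (pairIn_iff.1 (h3 a b ha hb))).2
    exact (h4.resolve_left hab).1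

end SW
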