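import Pool.Agent.H13.MA.TStmts

/-!
MA: module KEY.
-/

set_option linter.unusedVariables false
set_option synthInstance.maxSize 100000

namespace SW

section
variable {M : Type} [SetStr M] [ZF M]

/-- the set coded by `s` -/
noncomputable def keyS (w V β s : M) : M :=
  sep w (fun a => ∀ i W : M, E (opair i W) s → ¬ Sub W (app V (app β (opair a i))))

theorem keyS_df (w V β : M) : Fn1 (fun s : M => keyS w V β s) := by unfold keyS; infer_instance

instance {w V β : M} {n : ℕ} {t : (Fin n → M) → M} [ht : DfT t] : DfT (fun v => keyS w V β (t v)) :=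
  (keyS_df w V β).comp1 ht

theorem mem_keyS {w V β s a : M} : E a (keyS w V β s) ↔
    E a w ∧ ∀ i W : M, E (opair i W) s → ¬ Sub W (app V (app β (opair a i))) := by
  unfold keyS
  rw [mem_sep' inferInstance]

/-- the members of `S` for which `W` is not contained in the set with index `(a, i)` -/
noncomputable def keyB (w V β s i W : M) : M :=
  sep (keyS w V β s) (fun a => ¬ Sub W (app V (app β (opair a i))))

theorem keyB_df (w V β : M) : DfT (fun v : Fin 3 → M => keyB w V β (v 0) (v 1) (v 2)) := by
  unfold keyB; infer_instance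

instance {w V β : M} {n : ℕ} {t s u : (Fin n → M) → M} [ht : DfT t] [hs : DfT s] [hu : DfT u] :
    DfT (fun v => keyB w V β (t v) (s v) (u v)) :=
  (keyB_df w V β).comp3 (f := fun a b c => keyB w V β a b c) ht hs hu

theorem mem_keyB {w V β s i W a : M} : E a (keyB w V β s i W) ↔
    E a (keyS w V β s) ∧ ¬ Sub W (app V (app β (opair a i))) := by
  unfold keyB
  rw [mem_sep' inferInstance]

/-- the family whose union is `N` -/
noncomputable def keyU (w O V β s i : M) : M := sep O (fun W => Cb (keyB w V β s i W))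

theorem keyU_df (w O V β : M) : Fn2 (fun s i : M => keyU w O V β s i) := by unfold keyU; infer_instance

instance {w O V β : M} {n : ℕ} {t s : (Fin n → M) → M} [ht : DfT t] [hs : DfT s] :
    DfT (fun v => keyU w O V β (t v) (s v)) := (keyU_df w O V β).comp2 ht hs

theorem mem_keyU {w O V β s i W : M} : E W (keyU w O V β s i) ↔ E W O ∧ Cb (keyB w V β s i W) := by
  unfold keyU
  rw [mem_sep' inferInstance]

/-- the countable pseudobase -/
def KeyP (O u W : M) : Prop := Cb W ∧ (∀ z, E z W → ¬ Sub z (sUn u)) ∧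
  ∀ z, E z O → ¬ Sub z (sUn u) → ∃ z', E z' W ∧ Sub z' z

theorem KeyP_df : Cl3 (fun O u W : M => KeyP O u W) := by unfold KeyP; infer_instance

instance {n : ℕ} {t s u : (Fin n → M) → M} [ht : DfT t] [hs : DfT s] [hu : DfT u] :
    Df (fun v => KeyP (t v) (s v) (u v)) := KeyP_df.comp3 ht hs hu

/-- the chosen pseudobase -/
noncomputable def keyW (g w O V β s i : M) : M := app g (sep (pow O) (fun W => KeyP O (keyU w O V β s i) W))

theorem keyW_df (g w O V β : M) : Fn2 (fun s i : M => keyW g w O V β s i) := by unfold keyW; infer_instance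

instance {g w O V β : M} {n : ℕ} {t s : (Fin n → M) → M} [ht : DfT t] [hs : DfT s] :
    DfT (fun v => keyW g w O V β (t v) (s v)) := (keyW_df g w O V β).comp2 ht hs

/-- the one step extensions of `s` -/
noncomputable def keyN (g w O V β n s : M) : M :=
  sUn (img n (fun i => img (keyW g w O V β s i) (fun W => ins (opair i W) s)))

theorem keyN_df (g w O V β n : M) : Fn1 (fun s : M => keyN g w O V β n s) := by unfold keyN; infer_instance

theorem mem_keyN {g w O V β n s z : M} : E z (keyN g w O V β n s) ↔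
    ∃ i W, E i n ∧ E W (keyW g w O V β s i) ∧ z = ins (opair i W) s := by
  unfold keyN
  rw [mem_sUn]
  constructor
  · rintro ⟨y, hy, hz⟩
    rw [mem_img' inferInstance] at hy
    obtain ⟨i, hi, rfl⟩ := hy
    rw [mem_img' inferInstance] at hz
    obtain ⟨W, hW, rfl⟩ := hz
    exact ⟨i, W, hi, hW, rfl⟩
  · rintro ⟨i, W, hi, hW, rfl⟩
    refine ⟨img (keyW g w O V β s i) (fun W => ins (opair i W) s), ?_, ?_⟩
    · rw [mem_img' inferInstance]
      exact ⟨i, hi, rfl⟩
    · rw [mem_img' inferInstance]
      exact ⟨W, hW, rfl⟩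

end

theorem ma_key (hclo : CLOStmt) (hcbt : CBTStmt) (hwf : WFStmt) (hacf : ACFStmt) : KEYStmt := by
  intro M _ _ w O V n β hw hDec hHL hPB hn hβ hlt hblk
  have cb := hcbt M
  have wf := hwf M w hw
  obtain ⟨g, hg⟩ := hacf M (pow O)
  obtain ⟨g2, hg2⟩ := hacf M w
  -- properties of the chosen pseudobase
  have hW : ∀ s i, Sub (keyW g w O V β s i) O ∧ KeyP O (keyU w O V β s i) (keyW g w O V β s i) := by
    intro s i
    have h1 : E (keyW g w O V β s i) (sep (pow O) (fun W => KeyP O (keyU w O V β s i) W)) := by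
      refine hg _ ?_ ?_
      · intro z hz
        rw [mem_sep' inferInstance] at hz
        exact hz.1
      · obtain ⟨W, h1, h2⟩ := hPB (keyU w O V β s i) (fun z hz => (mem_keyU.1 hz).1)
        refine ⟨W, ?_⟩
        rw [mem_sep' inferInstance, mem_pow]
        exact ⟨h1, h2⟩
    rw [mem_sep' inferInstance, mem_pow] at h1
    exact h1
  have hSins : ∀ s i W a, E a (keyS w V β (ins (opair i W) s)) ↔
      E a (keyS w V β s) ∧ ¬ Sub W (app V (app β (opair a i))) := by
    intro s i W a
    rw [mem_keyS, mem_keyS]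
    constructor
    · rintro ⟨h1, h2⟩
      exact ⟨⟨h1, fun j W' h => h2 j W' (by rw [mem_ins]; exact Or.inl h)⟩, h2 i W (by rw [mem_ins]; exact Or.inr rfl)⟩
    · rintro ⟨⟨h1, h2⟩, h3⟩
      refine ⟨h1, fun j W' h => ?_⟩
      rw [mem_ins, opair_inj] at h
      rcases h with h | ⟨rfl, rfl⟩
      · exact h2 j W' h
      · exact h3
  -- the closure
  obtain ⟨C, hC0, hCX, hCc, hCcl⟩ := hclo M (sep (pow (prod n O)) (fun s => ¬ Cb (keyS w V β s))) (sing emp)
    (fun s => keyN g w O V β n s) (keyN_df g w O V β n) (by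
      intro z hz
      rw [mem_sing] at hz
      subst hz
      rw [mem_sep' inferInstance, mem_pow]
      refine ⟨fun z hz => absurd hz (not_mem_emp z), ?_⟩
      have : keyS w V β emp = w := ext fun z => by
        rw [mem_keyS]
        exact ⟨fun h => h.1, fun h => ⟨h, fun i W h' => absurd h' (not_mem_emp _)⟩⟩
      rw [this]
      exact hw.2.1)
    (cb.fin (by
      have : (sing emp : M) = ins emp emp := ext fun z => by rw [mem_sing, mem_ins]; simp
      rw [this]; exact finF.ins finF.emp))
    (by
      intro s hs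
      rw [mem_sep' inferInstance, mem_pow] at hs
      obtain ⟨hs1, hs2⟩ := hs
      constructor
      · intro z hz
        rw [mem_keyN] at hz
        obtain ⟨i, W, hi, hWW, rfl⟩ := hz
        rw [mem_sep' inferInstance, mem_pow]
        constructor
        · intro z hz
          rw [mem_ins] at hz
          rcases hz with hz | rfl
          · exact hs1 z hz
          · rw [mem_prod]; exact ⟨hi, (hW s i).1 W hWW⟩
        · intro hc
          refine (hW s i).2.2.1 W hWW (sub_sUn ?_)
          rw [mem_keyU]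
          refine ⟨(hW s i).1 W hWW, cb.sub hc fun a ha => ?_⟩
          rw [mem_keyB] at ha
          rw [hSins]
          exact ha
      · unfold keyN
        refine cb.iUn (fun i => img (keyW g w O V β s i) (fun W => ins (opair i W) s)) inferInstance
          (cb.fin (finF.nat hn)) fun i hi => ?_
        exact cb.img (fun W => ins (opair i W) s) inferInstance (hW s i).2.1)
  have hCu : ∀ s, E s C → ¬ Cb (keyS w V β s) := fun s hs => by
    have := hCX s hs
    rw [mem_sep' inferInstance] at this
    exact this.2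
  -- chosen elements and a bound for them
  have hf : ∀ s, E s C → E (app g2 (keyS w V β s)) (keyS w V β s) := by
    intro s hs
    refine hg2 _ (fun z hz => (mem_keyS.1 hz).1) ?_
    by_contra hno
    push Not at hno
    apply hCu s hs
    rw [eq_emp hno]
    exact cb.fin finF.emp
  obtain ⟨η, hη, hηb⟩ := wf.bdd (s := img C (fun s => app g2 (keyS w V β s))) (by
      intro z hz
      rw [mem_img' inferInstance] at hz
      obtain ⟨s, hs, rfl⟩ := hz
      exact (mem_keyS.1 (hf s hs)).1) (cb.img (fun s => app g2 (keyS w V β s)) inferInstance hCc)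
  have hclaim : ∃ i j s, E i n ∧ E j n ∧ E s C ∧
      Sub (app V (app β (opair η j))) (sUn (keyU w O V β s i)) := by
    by_contra hcon
    push Not at hcon
    have hind : ∀ Q, Fnt Q → Sub Q (prod n n) → ∃ s, E s C ∧ ∀ i j a, E (opair i j) Q → E a (keyS w V β s) →
        ¬ Sub (app V (app β (opair η j))) (app V (app β (opair a i))) := by
      refine finF.ind (fun Q : M => Sub Q (prod n n) → ∃ s : M, E s C ∧ ∀ i j a : M, E (opair i j) Q →
        E a (keyS w V β s) → ¬ Sub (app V (app β (opair η j))) (app V (app β (opair a i)))) inferInstance ?_ ?_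
      · intro _
        exact ⟨emp, hC0 emp (by rw [mem_sing]), fun i j a h => absurd h (not_mem_emp _)⟩
      · intro Q q hQ hq ih hsub
        obtain ⟨s, hs, hsQ⟩ := ih (fun z hz => hsub z (by rw [mem_ins]; exact Or.inl hz))
        have hq2 := hsub q (by rw [mem_ins]; exact Or.inr rfl)
        rw [mem_prod'] at hq2
        obtain ⟨i, j, hi, hj, rfl⟩ := hq2
        obtain ⟨W, hWW, hWV⟩ := (hW s i).2.2.2 (app V (app β (opair η j))) (hDec.1 _ (hβ η j hη hj))
          (hcon i j s hi hj hs)
        refine ⟨ins (opair i W) s, hCcl s hs _ (mem_keyN.2 ⟨i, W, hi, hWW, rfl⟩), ?_⟩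
        intro i' j' a hij ha
        rw [hSins] at ha
        rw [mem_ins, opair_inj] at hij
        rcases hij with h | ⟨rfl, rfl⟩
        · exact hsQ i' j' a h ha.1
        · intro hsub2
          exact ha.2 (hWV.trans hsub2)
    obtain ⟨s, hs, hsQ⟩ := hind (prod n n) (finF.prod (finF.nat hn) (finF.nat hn)) (Sub.refl _)
    have h1 : E (app g2 (keyS w V β s)) η := hηb _ (by
      rw [mem_img' inferInstance]
      exact ⟨s, hs, rfl⟩)
    obtain ⟨i, j, hi, hj, hij⟩ := hblk _ η hη h1
    exact hsQ i j _ (mem_prod.2 ⟨hi, hj⟩) (hf s hs) hij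
  obtain ⟨i, j, s, hi, hj, hs, hsub⟩ := hclaim
  obtain ⟨c, hc1, hc2, hc3⟩ := hHL (keyU w O V β s i) (fun z hz => (mem_keyU.1 hz).1)
  have hBc : Cb (keyB w V β s i (sUn (keyU w O V β s i))) := by
    refine cb.sub (cb.iUn (fun W => keyB w V β s i W) inferInstance hc2 fun W hW => (mem_keyU.1 (hc1 W hW)).2) ?_
    intro a ha
    rw [mem_keyB] at ha
    rw [mem_sUn]
    by_contra hno
    push Not at hno
    apply ha.2
    refine hc3.trans ?_
    intro z hz
    rw [mem_sUn] at hz
    obtain ⟨W, hW, hz⟩ := hz
    by_contra hzV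
    refine hno (keyB w V β s i W) ?_ ?_
    · rw [mem_img' inferInstance]
      exact ⟨W, hW, rfl⟩
    · rw [mem_keyB]
      exact ⟨ha.1, fun h => hzV (h z hz)⟩
  have hunc : ¬ Cb (sep (keyS w V β s) (fun a => Sub (sUn (keyU w O V β s i)) (app V (app β (opair a i))))) := by
    intro hc
    apply hCu s hs
    refine cb.sub (cb.bun hc hBc) ?_
    intro a ha
    rw [mem_bun, mem_keyB, mem_sep' inferInstance]
    by_cases h : Sub (sUn (keyU w O V β s i)) (app V (app β (opair a i)))
    · exact Or.inl ⟨ha, h⟩
    · exact Or.inr ⟨ha, h⟩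
  obtain ⟨ζ, hζ, hηζ⟩ := wf.unb (s := sep (keyS w V β s) (fun a => Sub (sUn (keyU w O V β s i))
    (app V (app β (opair a i))))) (fun z hz => by
      rw [mem_sep' inferInstance] at hz
      exact (mem_keyS.1 hz.1).1) hunc η hη
  rw [mem_sep' inferInstance] at hζ
  have hζw := (mem_keyS.1 hζ.1).1
  exact hDec.2 _ _ (hβ ζ i hζw hi) (hlt η ζ j i hζw hηζ hj hi) (hsub.trans hζ.2)

end SW
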